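import Pool.Agent.Helper61.QT.GoalsH
import Pool.Agent.Helper69.QS.CE

/-!
Packet QT-K2 (project QT, MP_0ebdb3_gt): the algebraic solution of the functional equation.
-/

set_option autoImplicit false

open Set NormedSpace

namespace Pool.Agent.Helper40.QT

open Pool.Agent.Helper61.QS (V En tr)
open Pool.Agent.Helper69.QS

variable {k : ℕ}

/-- commutator -/
noncomputable def br (p q : En k) : En k := p * q - q * p

lemma br_add_left (p p' q : En k) : br (p + p') q = br p q + br p' q := by unfold br; noncomm_ring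

lemma br_jac (p q r : En k) : br (br p q) r = br p (br q r) - br q (br p r) := by
  unfold br; noncomm_ring

lemma br_jac' (p q r : En k) : br p (br q r) = br (br p q) r + br q (br p r) := by
  unfold br; noncomm_ring

lemma br_zero (p : En k) : br p 0 = 0 := by unfold br; simp

lemma zero_br (p : En k) : br 0 p = 0 := by unfold br; simp

lemma star_br {p q : En k} (hp : star p = -p) (hq : star q = -q) : star (br p q) = -br p q := by
  unfold br
  rw [star_sub, star_mul, star_mul, hp, hq]
  noncomm_ring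

lemma deriv_br_right (q : En k) (f : ℝ → En k) (f' : En k) (x : ℝ) (hf : HasDerivAt f f' x)
    (h : ∀ y, br q (f y) = 0) : br q f' = 0 := by
  have h1 : HasDerivAt (fun y => q * f y - f y * q) (q * f' - f' * q) x :=
    (hf.const_mul q).sub (hf.mul_const q)
  have h3 : (fun y => q * f y - f y * q) = fun _ => (0 : En k) := funext h
  rw [h3] at h1
  exact h1.unique (hasDerivAt_const x 0)

lemma deriv_br_left (q : En k) (f : ℝ → En k) (f' : En k) (x : ℝ) (hf : HasDerivAt f f' x)
    (h : ∀ y, br (f y) q = 0) : br f' q = 0 := by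
  have h1 : HasDerivAt (fun y => f y * q - q * f y) (f' * q - q * f') x :=
    (hf.mul_const q).sub (hf.const_mul q)
  have h3 : (fun y => f y * q - q * f y) = fun _ => (0 : En k) := funext h
  rw [h3] at h1
  exact h1.unique (hasDerivAt_const x 0)

/-- the iterated commutators of `z y` with `c` -/
noncomputable def Zj (c : En k) (z : ℝ → En k) : ℕ → ℝ → En k
  | 0, y => z y
  | j + 1, y => br c (Zj c z j y)

/-- the commutant of the iterated commutators -/
def Cm (c : En k) (z : ℝ → En k) : Submodule ℝ (En k) where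
  carrier := {q | ∀ j y, br q (Zj c z j y) = 0}
  add_mem' := fun {a b} ha hb j y => by rw [br_add_left, ha, hb, add_zero]
  zero_mem' := fun j y => zero_br _
  smul_mem' := fun r q hq j y => by
    have := hq j y
    unfold br at this ⊢
    rw [smul_mul_assoc, mul_smul_comm, ← smul_sub, this, smul_zero]

lemma mem_Cm {c : En k} {z : ℝ → En k} {q : En k} : q ∈ Cm c z ↔ ∀ j y, br q (Zj c z j y) = 0 :=
  Iff.rfl

lemma Cm_mul {c : En k} {z : ℝ → En k} {p q : En k} (hp : p ∈ Cm c z) (hq : q ∈ Cm c z) :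
    p * q ∈ Cm c z := fun j y => by
  have h1 := hp j y
  have h2 := hq j y
  have : br (p * q) (Zj c z j y) = p * br q (Zj c z j y) + br p (Zj c z j y) * q := by
    unfold br; noncomm_ring
  rw [this, h1, h2]; simp

lemma Zj_skew {c : En k} {z : ℝ → En k} (hc : star c = -c) (hz : ∀ x, star (z x) = -z x) (j : ℕ)
    (y : ℝ) : star (Zj c z j y) = -Zj c z j y := by
  induction j with
  | zero => exact hz y
  | succ j ih => exact star_br hc ih

lemma Cm_star {c : En k} {z : ℝ → En k} (hc : star c = -c) (hz : ∀ x, star (z x) = -z x)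
    {q : En k} (hq : q ∈ Cm c z) : star q ∈ Cm c z := fun j y => by
  have h1 := congrArg star (hq j y)
  unfold br at h1 ⊢
  rw [star_sub, star_mul, star_mul, Zj_skew hc hz, star_zero] at h1
  rw [← h1]
  noncomm_ring

lemma Cm_c {c : En k} {z : ℝ → En k} {q : En k} (hq : q ∈ Cm c z) : br c q ∈ Cm c z := fun j y => by
  have h1 : br q (br c (Zj c z j y)) = 0 := hq (j + 1) y
  rw [br_jac, hq j y, h1, br_zero, sub_zero]

/-- splitting off the part in a star subalgebra -/
lemma split (C : Submodule ℝ (En k)) (hm : ∀ p ∈ C, ∀ q ∈ C, p * q ∈ C)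
    (hs : ∀ p ∈ C, star p ∈ C) (X : En k) (hX : star X = -X)
    (hXC : ∀ q ∈ C, br X q ∈ C) :
    ∃ Y ∈ C, star Y = -Y ∧ ∀ q ∈ C, br (X - Y) q = 0 := by
  obtain ⟨Y, hY, hYp⟩ := exists_proj C X
  have hskew : star Y = -Y := by
    have h1 : -star Y = Y := by
      refine proj_unique C _ _ (C.neg_mem (hs _ hY)) hY fun d hd => ?_
      have h2 : tr (star d * star Y) = -tr (star d * X) := by
        calc tr (star d * star Y) = tr (star (Y * d)) := by rw [star_mul]
          _ = tr (Y * d) := Pool.Agent.Helper61.QS.tr_star _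
          _ = tr (star (star d) * Y) := by rw [star_star, Pool.Agent.Helper61.QS.tr_mul_comm]
          _ = tr (star (star d) * X) := hYp _ (hs _ hd)
          _ = tr (X * d) := by rw [star_star, Pool.Agent.Helper61.QS.tr_mul_comm]
          _ = tr (star (X * d)) := (Pool.Agent.Helper61.QS.tr_star _).symm
          _ = -tr (star d * X) := by
            rw [star_mul, hX, mul_neg, Pool.Agent.Helper61.QS.tr_neg]
      rw [mul_neg, Pool.Agent.Helper61.QS.tr_neg, h2, neg_neg, hYp d hd]
    rw [neg_eq_iff_eq_neg] at h1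
    exact h1
  refine ⟨Y, hY, hskew, fun q hq => ?_⟩
  set D : En k := br (X - Y) q with hDdef
  have hDm : D ∈ C := by
    have h1 : D = br X q - (Y * q - q * Y) := by rw [hDdef]; unfold br; noncomm_ring
    rw [h1]
    exact C.sub_mem (hXC q hq) (C.sub_mem (hm _ hY _ hq) (hm _ hq _ hY))
  have hperp : ∀ e ∈ C, tr (star e * (X - Y)) = 0 := by
    intro e he
    rw [mul_sub, Pool.Agent.Helper61.QS.tr_sub, hYp e he, sub_self]
  apply Pool.Agent.Helper61.QS.eq_zero_of_tr
  have h3 : star D * D = star D * (X - Y) * q - star D * q * (X - Y) := by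
    rw [hDdef]; unfold br; noncomm_ring
  have hsD : star D ∈ C := hs _ hDm
  have h4 : tr (star D * (X - Y) * q) = tr (q * star D * (X - Y)) := by
    rw [Pool.Agent.Helper61.QS.tr_mul_comm, ← mul_assoc]
  have h5 := hperp (star (q * star D)) (hs _ (hm _ hq _ hsD))
  have h6 := hperp (star (star D * q)) (hs _ (hm _ hsD _ hq))
  rw [star_star] at h5 h6
  rw [h3, Pool.Agent.Helper61.QS.tr_sub, h4, h5, h6, sub_zero]

/-- a solution of `f' = [f, B]` -/
lemma ode_conj (f : ℝ → En k) (B : En k) (hf : ∀ y, HasDerivAt f (f y * B - B * f y) y) (y : ℝ) :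
    f y = exp ((-y) • B) * f 0 * exp (y • B) := by
  let _ : NormedAlgebra ℚ (En k) := NormedAlgebra.restrictScalars ℚ ℝ (En k)
  have he : ∀ x : ℝ, HasDerivAt (fun x : ℝ => exp (x • B)) (exp (x • B) * B) x := fun x =>
    hasDerivAt_exp_smul_const B x
  have he' : ∀ x : ℝ, HasDerivAt (fun x : ℝ => exp ((-x) • B)) (-(B * exp ((-x) • B))) x := by
    intro x
    have h := (hasDerivAt_exp_smul_const' (𝕂 := ℝ) B (-x)).scomp x (hasDerivAt_neg x)
    have e : (fun x : ℝ => exp ((-x) • B)) = (fun u : ℝ => exp (u • B)) ∘ Neg.neg := rfl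
    rw [e]
    simpa using h
  have h1 : ∀ x : ℝ, HasDerivAt (fun x : ℝ => exp (x • B) * f x * exp ((-x) • B)) 0 x := by
    intro x
    have h := ((he x).mul (hf x)).mul (he' x)
    have e : (exp (x • B) * B * f x + exp (x • B) * (f x * B - B * f x)) * exp ((-x) • B) +
        exp (x • B) * f x * -(B * exp ((-x) • B)) = 0 := by
      noncomm_ring
    refine h.congr_deriv ?_
    exact e
  have h2 : exp (y • B) * f y * exp ((-y) • B) = f 0 := by
    have h3 := is_const_of_deriv_eq_zero (f := fun x : ℝ => exp (x • B) * f x * exp ((-x) • B))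
      (fun x => (h1 x).differentiableAt) (fun x => (h1 x).deriv) y 0
    simpa using h3
  rw [← h2]
  calc f y = 1 * f y * 1 := by rw [one_mul, mul_one]
    _ = (exp ((-y) • B) * exp (y • B)) * f y * (exp ((-y) • B) * exp (y • B)) := by rw [e_neg_mul]
    _ = _ := by simp only [mul_assoc]

theorem goalK2 : Pool.Agent.Helper61.QT.G_K2 := by
  intro k c z n hc hz hn hn' hz'
  -- step (ii)
  have hz'' : ∀ x y, HasDerivAt z (br (n x) (z y)) y := hz'
  have hE : ∀ j x y, br (n x - n 0) (Zj c z j y) = 0 := by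
    intro j
    induction j with
    | zero =>
      intro x y
      have h := (hz'' x y).unique (hz'' 0 y)
      change br (n x - n 0) (z y) = 0
      have e : br (n x - n 0) (z y) = br (n x) (z y) - br (n 0) (z y) := by unfold br; noncomm_ring
      rw [e, h, sub_self]
    | succ j ih =>
      intro x y
      have hd : ∀ x', br (br (n x') c) (Zj c z j y) = 0 := by
        intro x'
        have h1 := deriv_br_left (Zj c z j y) (fun x => n x - n 0) _ x' ((hn' x').sub_const _)
          fun x => ih x y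
        have e : (br (n x') c : En k) = (2 : ℝ) • ((1 / 2 : ℝ) • (n x' * c - c * n x')) := by
          rw [smul_smul]; norm_num; rfl
        rw [e]
        have e2 : br ((2 : ℝ) • ((1 / 2 : ℝ) • (n x' * c - c * n x'))) (Zj c z j y) =
            (2 : ℝ) • br ((1 / 2 : ℝ) • (n x' * c - c * n x')) (Zj c z j y) := by
          unfold br
          rw [smul_mul_assoc, mul_smul_comm, ← smul_sub]
        rw [e2, h1, smul_zero]
      change br (n x - n 0) (br c (Zj c z j y)) = 0
      rw [br_jac', ih x y, br_zero, add_zero]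
      have e : br (n x - n 0) c = br (n x) c + (-1 : ℝ) • br (n 0) c := by
        unfold br; rw [neg_one_smul]; noncomm_ring
      rw [e, br_add_left, hd x, zero_add]
      have e3 : br ((-1 : ℝ) • br (n 0) c) (Zj c z j y) = (-1 : ℝ) • br (br (n 0) c) (Zj c z j y) := by
        unfold br
        rw [smul_mul_assoc, mul_smul_comm, ← smul_sub]
      rw [e3, hd 0, smul_zero]
  have hEm : ∀ x, n x - n 0 ∈ Cm c z := fun x j y => hE j x y
  have hn'm : ∀ x, br (n x) c ∈ Cm c z := by
    intro x j y
    have h1 := deriv_br_left (Zj c z j y) (fun x => n x - n 0) _ x ((hn' x).sub_const _)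
      fun x => hE j x y
    have e : (br (n x) c : En k) = (2 : ℝ) • ((1 / 2 : ℝ) • (n x * c - c * n x)) := by
      rw [smul_smul]; norm_num; rfl
    rw [e]
    have e2 : br ((2 : ℝ) • ((1 / 2 : ℝ) • (n x * c - c * n x))) (Zj c z j y) =
        (2 : ℝ) • br ((1 / 2 : ℝ) • (n x * c - c * n x)) (Zj c z j y) := by
      unfold br
      rw [smul_mul_assoc, mul_smul_comm, ← smul_sub]
    rw [e2, h1, smul_zero]
  -- step (iii)
  have hiii : ∀ j y, ∀ q ∈ Cm c z, br q (br (n 0) (Zj c z j y)) = 0 := by
    intro j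
    induction j with
    | zero =>
      intro y q hq
      exact deriv_br_right q z _ y (hz'' 0 y) fun y => hq 0 y
    | succ j ih =>
      intro y q hq
      change br q (br (n 0) (br c (Zj c z j y))) = 0
      have e : br (n 0) (br c (Zj c z j y)) = br c (br (n 0) (Zj c z j y)) := by
        rw [br_jac', hn'm 0 j y, zero_add]
      rw [e, br_jac', ih y q hq, br_zero, add_zero]
      have h1 : br (br c q) (br (n 0) (Zj c z j y)) = 0 := ih y _ (Cm_c hq)
      have e2 : br (br q c) (br (n 0) (Zj c z j y)) = -br (br c q) (br (n 0) (Zj c z j y)) := by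
        unfold br; noncomm_ring
      rw [e2, h1, neg_zero]
  have hn0 : ∀ q ∈ Cm c z, br (n 0) q ∈ Cm c z := by
    intro q hq j y
    rw [br_jac, hq j y, br_zero, hiii j y q hq, sub_zero]
  -- step (iv)
  obtain ⟨cC, hcC, hcCs, hcD⟩ := split (Cm c z) (fun p hp q hq => Cm_mul hp hq)
    (fun p hp => Cm_star hc hz hp) c hc (fun q hq => Cm_c hq)
  obtain ⟨nC, hnC, hnCs, hnD⟩ := split (Cm c z) (fun p hp q hq => Cm_mul hp hq)
    (fun p hp => Cm_star hc hz hp) (n 0) (hn 0) hn0
  set cD : En k := c - cC with hcDdef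
  set nD : En k := n 0 - nC with hnDdef
  have hcDs : star cD = -cD := by rw [hcDdef, star_sub, hc, hcCs]; abel
  have hnDs : star nD = -nD := by rw [hnDdef, star_sub, hn, hnCs]; abel
  -- step (v)
  have hζ : br nD cD = 0 := by
    have hζm : br nD cD ∈ Cm c z := by
      have h1 := hcD nC hnC
      have h2 : br nD cD = br (n 0) c - br (n 0) cC + br cD nC := by
        rw [hnDdef, hcDdef]; unfold br; noncomm_ring
      rw [h2, h1, add_zero]
      exact (Cm c z).sub_mem (hn'm 0) (hn0 _ hcC)
    apply Pool.Agent.Helper61.QS.eq_zero_of_tr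
    have hs := Cm_star hc hz hζm
    have h1 := hcD _ hs
    have h2 : cD * star (br nD cD) = star (br nD cD) * cD := sub_eq_zero.1 h1
    calc tr (star (br nD cD) * br nD cD)
        = tr (star (br nD cD) * (nD * cD) - star (br nD cD) * cD * nD) := by
          congr 1
          unfold br; noncomm_ring
      _ = tr (star (br nD cD) * nD * cD) - tr (cD * (star (br nD cD) * nD)) := by
          rw [Pool.Agent.Helper61.QS.tr_sub, ← h2]
          simp only [mul_assoc]
      _ = 0 := by rw [Pool.Agent.Helper61.QS.tr_mul_comm, sub_self]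
  -- step (vi)
  have hcomm : ∀ q ∈ Cm c z, nD * q = q * nD := fun q hq => sub_eq_zero.1 (hnD q hq)
  have hcomm2 : ∀ q ∈ Cm c z, cD * q = q * cD := fun q hq => sub_eq_zero.1 (hcD q hq)
  have hcomm3 : ∀ q ∈ Cm c z, ∀ y, q * z y = z y * q := fun q hq y => sub_eq_zero.1 (hq 0 y)
  have hCm : (1 / 2 : ℝ) • cC ∈ Cm c z := (Cm c z).smul_mem _ hcC
  have hAm : nC + (1 / 2 : ℝ) • cC ∈ Cm c z := (Cm c z).add_mem hnC hCm
  have hcomD : ∀ q ∈ Cm c z, q * (-nD - (cD + z 0)) = (-nD - (cD + z 0)) * q := by
    intro q hq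
    have h1 := hcomm q hq
    have h2 := hcomm2 q hq
    have h3 := hcomm3 q hq 0
    calc q * (-nD - (cD + z 0)) = -(q * nD) - (q * cD + q * z 0) := by noncomm_ring
      _ = -(nD * q) - (cD * q + z 0 * q) := by rw [h1, h2, h3]
      _ = _ := by noncomm_ring
  have hN : ∀ x, n x - nD ∈ Cm c z := by
    intro x
    have e : n x - nD = nC + (n x - n 0) := by rw [hnDdef]; abel
    rw [e]
    exact (Cm c z).add_mem hnC (hEm x)
  have hNd : ∀ x, HasDerivAt (fun x => n x - nD)
      ((n x - nD) * ((1 / 2 : ℝ) • cC) - ((1 / 2 : ℝ) • cC) * (n x - nD)) x := by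
    intro x
    have h := (hn' x).sub_const nD
    have e : (1 / 2 : ℝ) • (n x * c - c * n x) =
        (n x - nD) * ((1 / 2 : ℝ) • cC) - ((1 / 2 : ℝ) • cC) * (n x - nD) := by
      rw [mul_smul_comm, smul_mul_assoc, ← smul_sub]
      congr 1
      have h1 := hcomm2 _ (hN x)
      have h2 := hcomm _ hcC
      have h3 : nD * cD = cD * nD := sub_eq_zero.1 hζ
      have e1 : n x * c - c * n x = ((n x - nD) * cC - cC * (n x - nD)) +
          ((n x - nD) * cD - cD * (n x - nD)) + (nD * cD - cD * nD) + (nD * cC - cC * nD) := by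
        rw [hcDdef]; noncomm_ring
      rw [e1, h1, h2, h3]
      abel
    rw [e] at h
    exact h
  have hzd : ∀ y, HasDerivAt z (z y * (-nD) - (-nD) * z y) y := by
    intro y
    have h := hz'' 0 y
    have h1 := hcomm3 _ hnC y
    have e : br (n 0) (z y) = z y * (-nD) - (-nD) * z y := by
      have e1 : br (n 0) (z y) = (nC * z y - z y * nC) + (nD * z y - z y * nD) := by
        rw [hnDdef]; unfold br; noncomm_ring
      rw [e1, h1]
      noncomm_ring
    rw [e] at h
    exact h
  refine ⟨nC + (1 / 2 : ℝ) • cC, -nD, (1 / 2 : ℝ) • cC, -nD - (cD + z 0), ?_, ?_, ?_, ?_, ?_, ?_, ?_,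
    ?_, ?_, ?_⟩
  · rw [star_add, star_smul, hnCs, hcCs]; simp; abel
  · rw [star_neg, hnDs]
  · rw [star_smul, hcCs]; simp
  · rw [star_sub, star_neg, star_add, hnDs, hcDs, hz]; abel
  · rw [mul_neg, neg_mul, hcomm _ hAm]
  · exact hcomD _ hAm
  · rw [mul_neg, neg_mul, hcomm _ hCm]
  · exact hcomD _ hCm
  · intro y
    have h1 := ode_conj z (-nD) hzd y
    have hcDe : exp ((-y) • -nD) * cD * exp (y • -nD) = cD := by
      have h := ode_conj (fun _ => cD) (-nD) (fun x => by
        have h3 : nD * cD = cD * nD := sub_eq_zero.1 hζ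
        have e : cD * (-nD) - (-nD) * cD = 0 := by rw [neg_mul, h3]; noncomm_ring
        rw [e]
        exact hasDerivAt_const x cD) y
      exact h.symm
    have hnDe : exp ((-y) • -nD) * nD * exp (y • -nD) = nD := by
      have h := ode_conj (fun _ => nD) (-nD) (fun x => by
        have e : nD * (-nD) - (-nD) * nD = 0 := by noncomm_ring
        rw [e]
        exact hasDerivAt_const x nD) y
      exact h.symm
    have e : exp ((-y) • -nD) * (-nD - (cD + z 0)) * exp (y • -nD) =
        -(exp ((-y) • -nD) * nD * exp (y • -nD)) - (exp ((-y) • -nD) * cD * exp (y • -nD)) -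
        (exp ((-y) • -nD) * z 0 * exp (y • -nD)) := by noncomm_ring
    rw [e, hcDe, hnDe, ← h1, smul_smul]
    norm_num
    rw [hcDdef]
    abel
  · intro x
    have h1 := ode_conj (fun x => n x - nD) ((1 / 2 : ℝ) • cC) hNd x
    have hCe : exp ((-x) • ((1 / 2 : ℝ) • cC)) * ((1 / 2 : ℝ) • cC) * exp (x • ((1 / 2 : ℝ) • cC)) =
        (1 / 2 : ℝ) • cC := by
      have h := ode_conj (fun _ => (1 / 2 : ℝ) • cC) ((1 / 2 : ℝ) • cC) (fun x => by
        rw [sub_self]
        exact hasDerivAt_const x _) x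
      exact h.symm
    have h0 : n 0 - nD = nC := by rw [hnDdef]; abel
    simp only [h0] at h1
    have e : exp ((-x) • ((1 / 2 : ℝ) • cC)) * (nC + (1 / 2 : ℝ) • cC) *
        exp (x • ((1 / 2 : ℝ) • cC)) =
        exp ((-x) • ((1 / 2 : ℝ) • cC)) * nC * exp (x • ((1 / 2 : ℝ) • cC)) +
        exp ((-x) • ((1 / 2 : ℝ) • cC)) * ((1 / 2 : ℝ) • cC) * exp (x • ((1 / 2 : ℝ) • cC)) := by
      rw [mul_add, add_mul]
    rw [e, hCe, ← h1]
    abel

end Pool.Agent.Helper40.QT
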