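import Pool.Agent.Helper61.QT.GoalsH

/-!
Packet QT-K1 (project QT, MP_0ebdb3_gt): first consequences of the functional equation.
-/

set_option autoImplicit false

open Set NormedSpace

namespace Pool.Agent.Helper40.QT.K1

open Pool.Agent.Helper61.QS (V En tr)
open Pool.Agent.Helper61.QT

variable {k : ℕ}

lemma skew_of_unitary (v : ℝ → En k) (v' : En k) (y : ℝ) (hv : HasDerivAt v v' y)
    (hu : ∀ x, v x ∈ unitary (En k)) : star (star (v y) * v') = -(star (v y) * v') := by
  have h1 : HasDerivAt (fun x => star (v x) * v x) (star v' * v y + star (v y) * v') y :=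
    hv.star.mul hv
  have h2 : (fun x => star (v x) * v x) = fun _ => (1 : En k) :=
    funext fun x => (Unitary.mem_iff.1 (hu x)).1
  rw [h2] at h1
  have h3 := h1.unique (hasDerivAt_const y 1)
  rw [star_mul, star_star]
  exact eq_neg_of_add_eq_zero_left h3

lemma skew_of_unitary' (v : ℝ → En k) (v' : En k) (y : ℝ) (hv : HasDerivAt v v' y)
    (hu : ∀ x, v x ∈ unitary (En k)) : star (v' * star (v y)) = -(v' * star (v y)) := by
  have h1 : HasDerivAt (fun x => v x * star (v x)) (v' * star (v y) + v y * star v') y :=
    hv.mul hv.star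
  have h2 : (fun x => v x * star (v x)) = fun _ => (1 : En k) :=
    funext fun x => (Unitary.mem_iff.1 (hu x)).2
  rw [h2] at h1
  have h3 := h1.unique (hasDerivAt_const y 1)
  rw [star_mul, star_star]
  exact eq_neg_of_add_eq_zero_right h3

/-- conjugation of a constant -/
lemma deriv_conj (g : ℝ → En k) (n : En k) (M : En k) (x : ℝ) (hg : HasDerivAt g (n * g x) x)
    (hn : star n = -n) : HasDerivAt (fun x => g x * M * star (g x))
      (n * (g x * M * star (g x)) - (g x * M * star (g x)) * n) x := by
  have h1 := (hg.mul_const M).mul hg.star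
  refine h1.congr_deriv ?_
  rw [star_mul, hn]
  noncomm_ring

theorem goalK1 : G_K1 := by
  intro k g f v l h
  have hgu : ∀ x, g x ∈ unitary (En k) := fun x => (h.unit x).1
  have hfu : ∀ x, f x ∈ unitary (En k) := fun x => (h.unit x).2.1
  have hvu : ∀ x, v x ∈ unitary (En k) := fun x => (h.unit x).2.2.1
  have gsg : ∀ x, star (g x) * g x = 1 := fun x => (Unitary.mem_iff.1 (hgu x)).1
  have ggs : ∀ x, g x * star (g x) = 1 := fun x => (Unitary.mem_iff.1 (hgu x)).2
  have fsf : ∀ x, star (f x) * f x = 1 := fun x => (Unitary.mem_iff.1 (hfu x)).1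
  have ffs : ∀ x, f x * star (f x) = 1 := fun x => (Unitary.mem_iff.1 (hfu x)).2
  have vsv : ∀ x, star (v x) * v x = 1 := fun x => (Unitary.mem_iff.1 (hvu x)).1
  have vvs : ∀ x, v x * star (v x) = 1 := fun x => (Unitary.mem_iff.1 (hvu x)).2
  have hgd : ∀ x, HasDerivAt g (deriv g x) x := fun x =>
    (h.smg.differentiable one_ne_zero x).hasDerivAt
  have hfd : ∀ x, HasDerivAt f (deriv f x) x := fun x =>
    (h.smf.differentiable one_ne_zero x).hasDerivAt
  have hvd : ∀ x, HasDerivAt v (deriv v x) x := fun x =>
    (h.smv.differentiable one_ne_zero x).hasDerivAt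
  have hvc : Continuous (deriv v) := h.smv.continuous_deriv le_rfl
  set w : ℝ → En k := fun y => star (v y) * deriv v y with hw
  set n : ℝ → En k := fun x => deriv g x * star (g x) with hn
  have hws : ∀ y, star (w y) = -w y := fun y => skew_of_unitary v _ y (hvd y) hvu
  have hns : ∀ y, star (n y) = -n y := fun y => skew_of_unitary' g _ y (hgd y) hgu
  have hwc : Continuous w := by
    have := h.smv.continuous
    exact this.star.mul hvc
  have hgn : ∀ x, HasDerivAt g (n x * g x) x := by
    intro x
    refine (hgd x).congr_deriv ?_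
    rw [hn]
    simp only [mul_assoc]
    rw [gsg, mul_one]
  have hvw : ∀ y, HasDerivAt v (v y * w y) y := by
    intro y
    refine (hvd y).congr_deriv ?_
    rw [hw]
    simp only [← mul_assoc]
    rw [vvs, one_mul]
  have g0 : g 0 = 1 := h.one.1
  have hrel : ∀ α β : ℝ, v (β + α) * g α = l (α + 2 * β) * f β := by
    intro α β
    have := h.rel α β
    simpa using this
  -- the differentiated relation
  have hD : ∀ x β : ℝ, -w (x + β) - (2 : ℝ) • n x = g x * (star (f β) * deriv f β) * star (g x) := by
    intro x β
    have h1 : HasDerivAt (fun t : ℝ => v (x + β - t)) (-deriv v (x + β)) 0 := by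
      have hi : HasDerivAt (fun t : ℝ => x + β - t) (-1) 0 := by
        simpa using (hasDerivAt_id (0 : ℝ)).const_sub (x + β)
      have h2 : HasDerivAt v (deriv v (x + β)) (x + β - 0) := by rw [sub_zero]; exact hvd _
      exact (h2.scomp (0 : ℝ) hi).congr_deriv (by simp)
    have h2 : HasDerivAt (fun t : ℝ => g (x - 2 * t)) (-(2 : ℝ) • deriv g x) 0 := by
      have hi : HasDerivAt (fun t : ℝ => x - 2 * t) (-2) 0 := by
        simpa using ((hasDerivAt_id (0 : ℝ)).const_mul 2).const_sub x
      have h2 : HasDerivAt g (deriv g x) (x - 2 * 0) := by rw [mul_zero, sub_zero]; exact hgd _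
      exact (h2.scomp (0 : ℝ) hi).congr_deriv (by simp)
    have h3 : HasDerivAt (fun t : ℝ => f (β + t)) (deriv f β) 0 := by
      have hi : HasDerivAt (fun t : ℝ => β + t) 1 0 := by
        simpa using (hasDerivAt_id (0 : ℝ)).const_add β
      have h2 : HasDerivAt f (deriv f β) (β + 0) := by rw [add_zero]; exact hfd _
      exact (h2.scomp (0 : ℝ) hi).congr_deriv (by simp)
    have h4 := h1.mul h2
    have h5 := h3.const_mul (l (x + 2 * β))
    have h6 : (fun t : ℝ => v (x + β - t)) * (fun t : ℝ => g (x - 2 * t)) =
        fun t : ℝ => l (x + 2 * β) * f (β + t) := by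
      funext t
      have := hrel (x - 2 * t) (β + t)
      have e1 : β + t + (x - 2 * t) = x + β - t := by ring
      have e2 : x - 2 * t + 2 * (β + t) = x + 2 * β := by ring
      rw [e1, e2] at this
      exact this
    rw [h6] at h4
    have h7 := h4.unique h5
    simp only [sub_zero, mul_zero] at h7
    have h8 : v (x + β) * g x = l (x + 2 * β) * f β := by
      have := hrel x β
      rwa [add_comm β x] at this
    have h9 : star (v (x + β)) * l (x + 2 * β) = g x * star (f β) := by
      calc star (v (x + β)) * l (x + 2 * β)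
          = star (v (x + β)) * (l (x + 2 * β) * f β) * star (f β) := by
            rw [mul_assoc, mul_assoc, ffs, mul_one]
        _ = star (v (x + β)) * (v (x + β) * g x) * star (f β) := by rw [h8]
        _ = g x * star (f β) := by rw [← mul_assoc, vsv, one_mul]
    calc -w (x + β) - (2 : ℝ) • n x
        = (star (v (x + β)) * (-deriv v (x + β) * g x + v (x + β) * (-(2 : ℝ) • deriv g x))) *
            star (g x) := by
          rw [hw, hn]
          simp only []
          rw [mul_add, ← mul_assoc (star (v (x + β))) (v (x + β)), vsv, one_mul, add_mul]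
          have e1 : star (v (x + β)) * (-deriv v (x + β) * g x) * star (g x) =
              -(star (v (x + β)) * deriv v (x + β) * (g x * star (g x))) := by noncomm_ring
          rw [e1, ggs, mul_one, neg_smul, neg_mul, smul_mul_assoc, sub_eq_add_neg]
      _ = (star (v (x + β)) * (l (x + 2 * β) * deriv f β)) * star (g x) := by rw [h7]
      _ = (g x * star (f β)) * deriv f β * star (g x) := by rw [← mul_assoc, h9]
      _ = _ := by simp only [mul_assoc]
  have hW : ∀ x y : ℝ, w y + (2 : ℝ) • n x = g x * (w (y - x) + (2 : ℝ) • n 0) * star (g x) := by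
    intro x y
    have h1 := hD x (y - x)
    have h2 := hD 0 (y - x)
    rw [g0, star_one, one_mul, mul_one, zero_add] at h2
    rw [← h2] at h1
    have e : x + (y - x) = y := by ring
    rw [e] at h1
    have h3 := congrArg Neg.neg h1
    calc w y + (2 : ℝ) • n x = -(-w y - (2 : ℝ) • n x) := by abel
      _ = -(g x * (-w (y - x) - (2 : ℝ) • n 0) * star (g x)) := h3
      _ = _ := by noncomm_ring
  -- periodicity
  have hper : Function.Periodic w (2 * Real.pi) := by
    intro y
    have h1 : ∀ x, v (x + 2 * Real.pi) = v x := fun x => (h.per x).2.2.1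
    have h2 : deriv v (y + 2 * Real.pi) = deriv v y := by
      rw [← deriv_comp_add_const]
      congr 1
      exact funext h1
    simp only [hw]
    rw [h1, h2]
  have hpi : (2 * Real.pi) ≠ 0 := by positivity
  set c : En k := (2 * Real.pi)⁻¹ • ∫ y in (0 : ℝ)..(2 * Real.pi), w y with hc
  have hcs : star c = -c := by
    rw [hc, star_smul, star_trivial, ← smul_neg]
    congr 1
    have h1 : star (∫ y in (0 : ℝ)..(2 * Real.pi), w y) = ∫ y in (0 : ℝ)..(2 * Real.pi), star (w y) := by
      have h2 := ((starL' ℝ : En k ≃L[ℝ] En k) : En k →L[ℝ] En k).intervalIntegral_comp_comm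
        (hwc.intervalIntegrable (μ := MeasureTheory.volume) 0 (2 * Real.pi))
      exact h2.symm
    rw [h1]
    simp only [hws]
    rw [intervalIntegral.integral_neg]
  have hint : (∫ y in (0 : ℝ)..(2 * Real.pi), w y) = (2 * Real.pi) • c := by
    rw [hc, smul_smul, mul_inv_cancel₀ hpi, one_smul]
  have hcA : ∀ x, c + (2 : ℝ) • n x = g x * (c + (2 : ℝ) • n 0) * star (g x) := by
    intro x
    have h1 : (∫ y in (0 : ℝ)..(2 * Real.pi), (w y + (2 : ℝ) • n x)) =
        ∫ y in (0 : ℝ)..(2 * Real.pi), g x * (w (y - x) + (2 : ℝ) • n 0) * star (g x) := by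
      congr 1
      exact funext fun y => hW x y
    have h2 : (∫ y in (0 : ℝ)..(2 * Real.pi), (w y + (2 : ℝ) • n x)) =
        (2 * Real.pi) • (c + (2 : ℝ) • n x) := by
      rw [intervalIntegral.integral_add (hwc.intervalIntegrable _ _) (by simp)]
      rw [intervalIntegral.integral_const, sub_zero, smul_add, hint]
    have h3 : (∫ y in (0 : ℝ)..(2 * Real.pi), g x * (w (y - x) + (2 : ℝ) • n 0) * star (g x)) =
        (2 * Real.pi) • (g x * (c + (2 : ℝ) • n 0) * star (g x)) := by
      have hwc' : Continuous fun y => w (y - x) := hwc.comp (continuous_id.sub continuous_const)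
      have h4 := (ContinuousLinearMap.mulLeftRight ℝ (En k) (g x) (star (g x))).intervalIntegral_comp_comm
        (((hwc'.add continuous_const).intervalIntegrable (μ := MeasureTheory.volume) 0
          (2 * Real.pi)) : IntervalIntegrable (fun y => w (y - x) + (2 : ℝ) • n 0) _ _ _)
      simp only [ContinuousLinearMap.mulLeftRight_apply, Pi.add_apply] at h4
      rw [h4, intervalIntegral.integral_add (hwc'.intervalIntegrable _ _) (by simp),
        intervalIntegral.integral_const, sub_zero, intervalIntegral.integral_comp_sub_right w x]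
      have h5 : (∫ y in (0 - x)..(2 * Real.pi - x), w y) = ∫ y in (0 : ℝ)..(2 * Real.pi), w y := by
        have := hper.intervalIntegral_add_eq (0 - x) 0
        have e : 0 - x + 2 * Real.pi = 2 * Real.pi - x := by ring
        rw [e, zero_add] at this
        exact this
      rw [h5]
      rw [hint, ← smul_add, mul_smul_comm, smul_mul_assoc]
    rw [h2, h3] at h1
    exact smul_right_injective _ hpi h1
  have hz : ∀ x y, w y - c = g x * (w (y - x) - c) * star (g x) := by
    intro x y
    have h1 := hW x y
    have h2 := hcA x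
    calc w y - c = (w y + (2 : ℝ) • n x) - (c + (2 : ℝ) • n x) := by abel
      _ = g x * (w (y - x) + (2 : ℝ) • n 0) * star (g x) -
          g x * (c + (2 : ℝ) • n 0) * star (g x) := by rw [h1, h2]
      _ = _ := by noncomm_ring
  set z : ℝ → En k := fun y => w y - c with hzdef
  have hnd : ∀ x, HasDerivAt n ((1 / 2 : ℝ) • (n x * c - c * n x)) x := by
    intro x
    have h1 := deriv_conj g (n x) (c + (2 : ℝ) • n 0) x (hgn x) (hns x)
    have h2 := (h1.sub_const c).const_smul (1 / 2 : ℝ)
    have h3 : (fun x => (1 / 2 : ℝ) • (g x * (c + (2 : ℝ) • n 0) * star (g x) - c)) = n := by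
      funext x
      rw [← hcA x, add_sub_cancel_left, smul_smul]
      norm_num
    have h4 : ((1 / 2 : ℝ) • fun x => g x * (c + (2 : ℝ) • n 0) * star (g x) - c) = n := h3
    rw [h4, ← hcA x] at h2
    refine h2.congr_deriv ?_
    congr 1
    clear_value c n
    rw [mul_add, add_mul, mul_smul_comm, smul_mul_assoc]
    abel
  have hzd0 : ∀ y, HasDerivAt z (n y * z y - z y * n y) y := by
    intro y
    have h1 := deriv_conj g (n y) (z 0) y (hgn y) (hns y)
    have h3 : (fun x => g x * z 0 * star (g x)) = z := by
      funext x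
      have := hz x x
      rw [sub_self] at this
      exact this.symm
    have h4 : g y * z 0 * star (g y) = z y := congrFun h3 y
    rw [h3, h4] at h1
    exact h1
  have hzd : ∀ x y, HasDerivAt z (n x * z y - z y * n x) y := by
    intro x y
    set ζ : En k := n (y - x) * z (y - x) - z (y - x) * n (y - x) with hζ
    have hζd : HasDerivAt z ζ (y - x) := hzd0 (y - x)
    -- derivative in `y`
    have h1 : HasDerivAt z (g x * ζ * star (g x)) y := by
      have hi : HasDerivAt (fun y : ℝ => y - x) 1 y := by
        simpa using (hasDerivAt_id y).sub_const x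
      have h2 := hζd.scomp y hi
      have h3 := (h2.const_mul (g x)).mul_const (star (g x))
      have h4 : (fun y => g x * (z ∘ fun y => y - x) y * star (g x)) = z := by
        funext y
        exact (hz x y).symm
      rw [h4] at h3
      simpa using h3
    -- derivative in `x`
    have h2 : n x * z y - z y * n x - g x * ζ * star (g x) = 0 := by
      have hi : HasDerivAt (fun x : ℝ => y - x) (-1) x := by
        simpa using (hasDerivAt_id x).const_sub y
      have h3 := hζd.scomp x hi
      have h4 := ((hgn x).mul h3).mul (hgn x).star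
      have h5 : g * (z ∘ fun x => y - x) * (fun x => star (g x)) = fun _ => z y := by
        funext x
        exact (hz x y).symm
      rw [h5] at h4
      have h6 := h4.unique (hasDerivAt_const x (z y))
      have h7 : z y = g x * z (y - x) * star (g x) := hz x y
      rw [← h6]
      simp only [Pi.mul_apply, Function.comp, neg_one_smul]
      rw [star_mul, hns, h7]
      noncomm_ring
    refine h1.congr_deriv ?_
    exact (sub_eq_zero.1 h2).symm
  refine ⟨c, z, n, hcs, ?_, hns, ?_, hgn, hnd, hzd⟩
  · intro x
    rw [hzdef]
    simp only []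
    rw [star_sub, hws, hcs]
    abel
  · intro y
    refine (hvw y).congr_deriv ?_
    rw [hzdef]
    simp only []
    rw [add_sub_cancel]

end Pool.Agent.Helper40.QT.K1
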